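import Pool.Agent.H642.TV.Meas
import Pool.Graph.R_seed8.Results.MP_5607ba_lc.ConjugationActions

set_option autoImplicit false

/-!
The countable-or-perfect dichotomy for the Polish group of the orientation preserving
homeomorphisms of the real line, acting on the actions of countable groups on the line by
orientation preserving homeomorphisms, together with sequences of closed sets.
-/

open Set TopologicalSpace MeasureTheory

namespace Pool.Agent.Results.MP_5607ba_lc.ActionsOnTheLine

/-- The space of pairs of a sequence of orientation preserving homeomorphisms of the line (`ℝ ≃o ℝ`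
is the group of the increasing bijections of `ℝ`, which are its orientation preserving
homeomorphisms) and a sequence of closed subsets of the line. A sequence of homeomorphisms is the
same thing as an action of the free group with countably many generators; the actions of a countable
group are the sequences which satisfy its relations. -/
abbrev Space : Type := (ℕ → ℝ ≃o ℝ) × (ℕ → Closeds ℝ)

/-- The Borel structure: the homeomorphisms carry the σ-algebra generated by the evaluations, the
closed sets carry the Effros Borel structure. -/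
@[reducible] def borelSpace : MeasurableSpace Space :=
  MeasurableSpace.generateFrom
    ({S | ∃ (n : ℕ) (t a : ℝ), S = {x : Space | x.1 n t < a}} ∪
      {S | ∃ (n : ℕ) (U : Set ℝ), IsOpen U ∧ S = {x : Space | ((x.2 n : Set ℝ) ∩ U).Nonempty}})

/-- `x` and `y` are in one orbit of the group of the orientation preserving homeomorphisms: some
`g` conjugates the homeomorphisms of `x` to those of `y` and maps the closed sets of `x` to those
of `y`. -/
def SameOrbit (x y : Space) : Prop :=
  ∃ g : ℝ ≃o ℝ, (∀ n t, y.1 n (g t) = g (x.1 n t)) ∧ ∀ n, (y.2 n : Set ℝ) = g '' (x.2 n : Set ℝ)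

open Pool.Agent.H642.TV
open Pool.Agent.Results.MP_5607ba_lc.ConjugationActions (Structures IsIso InG Expansion)

/-- The free group on countably many generators. -/
private abbrev FG : Type := FreeGroup ℕ

private theorem sameOrbit_symm {x y : Space} (h : SameOrbit x y) : SameOrbit y x := by
  obtain ⟨g, h1, h2⟩ := h
  refine ⟨g⁻¹, fun n t => ?_, fun n => ?_⟩
  · have h3 := h1 n (g⁻¹ t)
    rw [app_inv_self] at h3
    rw [h3, inv_app_self]
  · rw [h2 n, ← image_mul, inv_mul_cancel]
    simp [one_app]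

private theorem sameOrbit_trans {x y z : Space} (h : SameOrbit x y) (h' : SameOrbit y z) :
    SameOrbit x z := by
  obtain ⟨g, h1, h2⟩ := h
  obtain ⟨g', h1', h2'⟩ := h'
  refine ⟨g' * g, fun n t => ?_, fun n => ?_⟩
  · rw [mul_app, h1', h1, mul_app]
  · rw [h2', h2, image_mul]

/-- The action of the free group. -/
private noncomputable def hom (x : Space) : FG →* (ℝ ≃o ℝ) := FreeGroup.lift x.1

private theorem conj_of {x y : Space} {g : ℝ ≃o ℝ}
    (h : (∀ n t, y.1 n (g t) = g (x.1 n t)) ∧ ∀ n, (y.2 n : Set ℝ) = g '' (x.2 n : Set ℝ)) :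
    Conj g (hom x) (hom y) (fun n => (x.2 n : Set ℝ)) (fun n => (y.2 n : Set ℝ)) := by
  refine ⟨fun γ => ?_, h.2⟩
  have h1 : hom y = (MulAut.conj g).toMonoidHom.comp (hom x) := by
    apply FreeGroup.ext_hom
    intro n
    have h2 : hom y (FreeGroup.of n) = y.1 n := FreeGroup.lift_apply_of
    have h3 : hom x (FreeGroup.of n) = x.1 n := FreeGroup.lift_apply_of
    show hom y (FreeGroup.of n) = g * hom x (FreeGroup.of n) * g⁻¹
    rw [h2, h3]
    ext t
    have h4 := h.1 n (g⁻¹ t)
    rw [app_inv_self] at h4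
    exact h4
  rw [h1]
  rfl

/-- The point of the space coded by a structure. -/
private noncomputable def psi (s : Str FG) : Space :=
  (fun n => extn s (FreeGroup.of n), fun i => ⟨FF s i, isClosed_FF s i⟩)

private theorem hom_psi {s : Str FG} (hs : Valid s) : hom (psi s) = hs.hom := by
  apply FreeGroup.ext_hom
  intro n
  exact FreeGroup.lift_apply_of

/-- The linear order of the rationals. -/
private noncomputable def base : Structures Unit :=
  (fun _ m n => decide (en.symm m < en.symm n), fun _ m => m, fun _ _ => false)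

/-- Automorphisms of the order of the rationals give automorphisms of the line. -/
private theorem ext_of_inG {σ : Equiv.Perm ℕ} (h : InG base σ) :
    ∃ g : ℝ ≃o ℝ, ∀ q : ℚ, g q = (en.symm (σ (en q)) : ℚ) := by
  refine ext_rat (fun q => en.symm (σ (en q))) (fun p q hpq => ?_) fun q => ?_
  · have h1 := h.1 0 (en p) (en q)
    simp only [base, Equiv.symm_apply_apply] at h1
    have h2 : decide (p < q) = true := decide_eq_true hpq
    rw [h2] at h1
    exact of_decide_eq_true h1
  · exact ⟨en.symm (σ.symm (en q)), by simp⟩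

private theorem inG_of {g : ℝ ≃o ℝ} {σ : Equiv.Perm ℕ}
    (h : ∀ q : ℚ, g q = (en.symm (σ (en q)) : ℚ)) : InG base σ := by
  refine ⟨fun i m n => ?_, fun _ m => rfl, fun _ _ => rfl⟩
  show decide (en.symm (σ m) < en.symm (σ n)) = decide (en.symm m < en.symm n)
  have h1 := h (en.symm m)
  have h2 := h (en.symm n)
  rw [Equiv.apply_symm_apply] at h1 h2
  rw [decide_eq_decide, ← Rat.cast_lt (K := ℝ), ← h1, ← h2, g.lt_iff_lt, Rat.cast_lt]

private theorem en_act (s : Str FG) (γ : FG) (m : ℕ) : s.2.1 γ m = en (act s γ (en.symm m)) := by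
  simp [act]

/-- Isomorphic good structures: the code of the image. -/
private theorem good_iso {s s' : Str FG} {σ : Equiv.Perm ℕ} (hs : GoodS s) (hG : InG base σ)
    (hi : IsIso σ s s') : GoodS s' ∧ SameOrbit (psi s) (psi s') := by
  obtain ⟨g, hg⟩ := ext_of_inG hG
  set φ : ℚ → ℚ := fun q => en.symm (σ (en q)) with hφ
  have hmono : StrictMono φ := fun p q hpq => by
    have h1 : g (p : ℝ) < g q := g.lt_iff_lt.mpr (by exact_mod_cast hpq)
    rw [hg, hg] at h1
    exact_mod_cast h1
  have hsurj : Function.Surjective φ := fun q => ⟨en.symm (σ.symm (en q)), by simp [hφ]⟩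
  have hact : ∀ γ q, act s' γ (φ q) = φ (act s γ q) := by
    intro γ q
    simp only [hφ, act, Equiv.apply_symm_apply]
    rw [hi.2.1]
  have hQ : ∀ i q, QQ s' i (φ q) ↔ QQ s i q := by
    intro i q
    simp only [QQ, hφ, Equiv.apply_symm_apply]
    rw [hi.2.2]
  have hv : Valid s' := by
    refine ⟨fun i m n => ?_, fun p => ?_, fun γ δ p => ?_, fun γ p q hpq => ?_⟩
    · rw [← σ.apply_symm_apply m, ← σ.apply_symm_apply n, hi.1]
      exact hs.valid.rel _ _ _
    · obtain ⟨p, rfl⟩ := hsurj p
      rw [hact, hs.valid.one]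
    · obtain ⟨p, rfl⟩ := hsurj p
      rw [hact, hact, hact, hs.valid.mul]
    · obtain ⟨p, rfl⟩ := hsurj p
      obtain ⟨q, rfl⟩ := hsurj q
      rw [hact, hact]
      exact hmono (hs.valid.mono γ p q (hmono.lt_iff_lt.mp hpq))
  have hFF : ∀ i, FF s' i = g '' FF s i := by
    intro i
    rw [FF, FF, image_closure_iso]
    congr 1
    ext x
    constructor
    · rintro ⟨r, hr, rfl⟩
      obtain ⟨q, rfl⟩ := hsurj r
      exact ⟨q, ⟨q, (hQ i q).mp hr, rfl⟩, hg q⟩
    · rintro ⟨_, ⟨q, hq, rfl⟩, rfl⟩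
      exact ⟨φ q, (hQ i q).mpr hq, hg q⟩
  have happ : ∀ γ t, hv.hom γ (g t) = g (hs.valid.hom γ t) := by
    intro γ t
    have h1 : hv.hom γ * g = g * hs.valid.hom γ := rat_ext fun q => by
      rw [mul_app, mul_app, hg, hv.hom_app, hs.valid.hom_app, hg]
      exact_mod_cast hact γ q
    exact congrArg (fun f : ℝ ≃o ℝ => f t) h1
  have hC : Conj g hs.valid.hom hv.hom (FF s) (FF s') := by
    refine ⟨fun γ => ?_, hFF⟩
    ext t
    have h1 := happ γ (g⁻¹ t)
    rw [app_inv_self] at h1
    exact h1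
  refine ⟨?_, g, fun n t => happ (FreeGroup.of n) t, hFF⟩
  obtain ⟨h1, h2⟩ := (goodS_iff hs.valid hs.valid.hom_app).mp hs
  rw [goodS_iff hv hv.hom_app]
  refine ⟨fun i p => ?_, ?_⟩
  · obtain ⟨q, rfl⟩ := hsurj p
    rw [hQ, h1, hFF, ← hg q, mem_image_iso, inv_app_self]
  · have h3 := h2.conj hC
    have h4 : g '' RQ = RQ := by
      ext x
      constructor
      · rintro ⟨_, ⟨q, rfl⟩, rfl⟩
        exact ⟨φ q, (hg q).symm⟩
      · rintro ⟨r, rfl⟩
        obtain ⟨q, rfl⟩ := hsurj r
        exact ⟨q, ⟨q, rfl⟩, hg q⟩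
    rwa [h4] at h3

/-- Good structures that code points of one orbit are isomorphic. -/
private theorem iso_of_same {s s' : Str FG} (hs : GoodS s) (hs' : GoodS s')
    (h : SameOrbit (psi s) (psi s')) : ∃ σ : Equiv.Perm ℕ, InG base σ ∧ IsIso σ s s' := by
  obtain ⟨g, hg⟩ := h
  have hC := conj_of hg
  rw [hom_psi hs.valid, hom_psi hs'.valid] at hC
  have hC' : Conj g hs.valid.hom hs'.valid.hom (FF s) (FF s') := hC
  obtain ⟨h1, h2⟩ := (goodS_iff hs.valid hs.valid.hom_app).mp hs
  obtain ⟨h1', h2'⟩ := (goodS_iff hs'.valid hs'.valid.hom_app).mp hs'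
  have h3 := h2'.conj hC'.symm
  obtain ⟨k, k1, k2, k3, k4⟩ := uniq (isClosed_FF s) h2 h3 countable_RQ dense_RQ
    (countable_RQ.image _) ((g⁻¹).surjective.denseRange.dense_image (g⁻¹).continuous dense_RQ)
  -- `g * k` maps the rationals to the rationals
  have hrat : ∀ q : ℚ, ∃ r : ℚ, (g * k) q = r := by
    intro q
    obtain ⟨_, ⟨r, rfl⟩, hr⟩ := k3 q ⟨q, rfl⟩
    refine ⟨r, ?_⟩
    rw [mul_app, ← hr, app_inv_self]
  choose φ hφ using hrat
  have hinj : Function.Injective φ := fun p q hpq => by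
    have h4 : (g * k) (p : ℝ) = (g * k) q := by rw [hφ, hφ, hpq]
    exact_mod_cast (g * k).injective h4
  have hsurj : Function.Surjective φ := by
    intro r
    obtain ⟨_, ⟨q, rfl⟩, hq⟩ := k4 ⟨(r : ℝ), ⟨r, rfl⟩, rfl⟩
    refine ⟨q, ?_⟩
    have h4 : (g * k) (q : ℝ) = r := by
      rw [mul_app, hq, app_inv_self]
    rw [hφ] at h4
    exact_mod_cast h4
  set e : ℚ ≃ ℚ := Equiv.ofBijective φ ⟨hinj, hsurj⟩ with he
  set σ : Equiv.Perm ℕ := en.symm.trans (e.trans en) with hσ
  have hσ' : ∀ q : ℚ, en.symm (σ (en q)) = φ q := fun q => by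
    show en.symm (en (φ (en.symm (en q)))) = φ q
    simp
  have hσ'' : ∀ m, σ m = en (φ (en.symm m)) := fun m => rfl
  have hact : ∀ γ q, act s' γ (φ q) = φ (act s γ q) := by
    intro γ q
    have h4 : hs'.valid.hom γ (φ q) = (φ (act s γ q) : ℝ) := by
      rw [← hφ, ← hφ, mul_app, mul_app, hC'.app, ← k1, hs.valid.hom_app]
    rw [hs'.valid.hom_app] at h4
    exact_mod_cast h4
  have hQ : ∀ i q, QQ s' i (φ q) ↔ QQ s i q := by
    intro i q
    rw [h1', h1, hC'.2 i, ← hφ, mul_app, mem_image_iso, inv_app_self]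
    conv_lhs => rw [← k2 i]
    rw [mem_image_iso, inv_app_self]
  refine ⟨σ, inG_of (g := g * k) fun q => by rw [hφ, hσ'], fun i m n => ?_, fun γ m => ?_,
    fun i m => ?_⟩
  · rw [hs.valid.rel, hs'.valid.rel]
  · rw [en_act, hσ'' m, Equiv.symm_apply_apply, hact, hσ'', en_act, Equiv.symm_apply_apply]
  · have h4 := hQ i (en.symm m)
    simp only [QQ] at h4
    rw [hσ'' m]
    rw [Equiv.apply_symm_apply] at h4
    exact Bool.eq_iff_iff.mpr h4

/-- Every point is in the orbit of a coded point. -/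
private theorem exists_code (x : Space) : ∃ s : Str FG, GoodS s ∧ SameOrbit (psi s) x := by
  have hF : ∀ i, IsClosed ((x.2 i : Set ℝ)) := fun i => (x.2 i).isClosed
  obtain ⟨D, cD, dD, hD⟩ := exists_good (ρ := hom x) (F := fun i => (x.2 i : Set ℝ)) hF
  obtain ⟨τ, t1, t2, t3⟩ := cantor cD dD countable_RQ dense_RQ isOpen_univ ordConnected_univ
    univ_nonempty isOpen_univ ordConnected_univ univ_nonempty
  rw [inter_univ, inter_univ] at t3
  rw [inter_univ] at t2
  simp only [inter_univ] at t1
  obtain ⟨g, hg⟩ := ext_dense dD dense_RQ τ t2 t3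
  have hgD : g '' D = RQ := by
    ext y
    constructor
    · rintro ⟨d, hd, rfl⟩
      rw [hg d hd]
      exact t1 d hd
    · intro hy
      obtain ⟨d, hd, rfl⟩ := t3 hy
      exact ⟨d, hd, hg d hd⟩
  set ρ' : FG →* (ℝ ≃o ℝ) := (MulAut.conj g).toMonoidHom.comp (hom x) with hρ'
  set F' : ℕ → Set ℝ := fun i => g '' (x.2 i : Set ℝ) with hF'
  have hC : Conj g (hom x) ρ' (fun i => (x.2 i : Set ℝ)) F' := ⟨fun γ => rfl, fun i => rfl⟩
  have hG := hD.conj hC
  rw [hgD] at hG
  have hF'c : ∀ i, IsClosed (F' i) := fun i => isClosed_image g (hF i)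
  have hrat : ∀ (γ : FG) (q : ℚ), ∃ r : ℚ, ρ' γ q = r := by
    intro γ q
    obtain ⟨r, hr⟩ := hG.inv γ q ⟨q, rfl⟩
    exact ⟨r, hr.symm⟩
  choose φ hφ using hrat
  classical
  set s : Str FG := (fun _ _ _ => false, fun γ m => en (φ γ (en.symm m)),
    fun i m => decide ((en.symm m : ℝ) ∈ F' i)) with hs
  have hact : ∀ γ q, act s γ q = φ γ q := fun γ q => by simp [act, hs]
  have hc : ∀ γ (q : ℚ), ρ' γ q = act s γ q := fun γ q => by rw [hact, hφ]
  have hQ : ∀ i q, QQ s i q ↔ (q : ℝ) ∈ F' i := fun i q => by simp [QQ, hs]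
  have hv : Valid s := by
    refine ⟨fun _ _ _ => rfl, fun p => ?_, fun γ δ p => ?_, fun γ p q hpq => ?_⟩
    · have h1 : (act s 1 p : ℝ) = p := by rw [← hc, map_one, one_app]
      exact_mod_cast h1
    · have h1 : (act s (γ * δ) p : ℝ) = act s γ (act s δ p) := by
        rw [← hc, ← hc, ← hc, act_mul]
      exact_mod_cast h1
    · have h1 : (act s γ p : ℝ) < act s γ q := by
        rw [← hc, ← hc]
        exact (ρ' γ).lt_iff_lt.mpr (by exact_mod_cast hpq)
      exact_mod_cast h1
  have hFF : ∀ i, FF s i = F' i := by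
    intro i
    rw [FF, ← hG.closure_eq hF'c dense_RQ i]
    congr 1
    ext y
    constructor
    · rintro ⟨r, hr, rfl⟩
      exact ⟨(hQ i r).mp hr, r, rfl⟩
    · rintro ⟨h1, r, rfl⟩
      exact ⟨r, (hQ i r).mpr h1, rfl⟩
  have hFF' : FF s = F' := funext hFF
  have hhom : hv.hom = ρ' := by
    ext1 γ
    exact rat_ext fun q => by rw [hv.hom_app, hc]
  refine ⟨s, ?_, ?_⟩
  · rw [goodS_iff hv hc, hFF']
    exact ⟨hQ, hG⟩
  · refine sameOrbit_symm ⟨g, fun n t => ?_, fun n => hFF n⟩
    have h1 : extn s (FreeGroup.of n) = ρ' (FreeGroup.of n) := by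
      rw [← hhom]; rfl
    have h2 : hom x (FreeGroup.of n) = x.1 n := FreeGroup.lift_apply_of
    show extn s (FreeGroup.of n) (g t) = g (x.1 n t)
    rw [h1, hC.app, h2]

private theorem meas_psi {s : Set Space} (hs : MeasurableSet[borelSpace] s) :
    MeasurableSet {a : Str FG | Valid a ∧ psi a ∈ s} := by
  have hV : MeasurableSet {a : Str FG | Valid a} := m_valid.setOf
  have hm : @Measurable {a : Str FG // Valid a} Space _ borelSpace (fun a => psi a.1) := by
    refine measurable_generateFrom ?_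
    rintro _ (⟨n, t, a, rfl⟩ | ⟨n, U, hU, rfl⟩)
    · have h1 : (fun a : {a : Str FG // Valid a} => psi a.1) ⁻¹' {x : Space | x.1 n t < a} =
          Subtype.val ⁻¹' {s : Str FG | ∃ q : ℚ, t < q ∧
            (act s (FreeGroup.of n) q : ℝ) < a} := by
        ext ⟨s, hs⟩
        show extn s (FreeGroup.of n) t < a ↔ ∃ q : ℚ, t < q ∧ (act s (FreeGroup.of n) q : ℝ) < a
        constructor
        · intro h
          obtain ⟨q, h2, h3⟩ := exists_rat_btwn (lt_inv_app.mpr h)
          refine ⟨q, h2, ?_⟩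
          rw [← hs.extn_app]
          exact lt_inv_app.mp h3
        · rintro ⟨q, h2, h3⟩
          rw [← hs.extn_app] at h3
          exact ((extn s (FreeGroup.of n)).lt_iff_lt.mpr h2).trans h3
      rw [h1]
      refine measurable_subtype_coe (Measurable.setOf ?_)
      exact .exists fun q => .and measurable_const (m_act _ q fun r => (r : ℝ) < a)
    · have h1 : (fun a : {a : Str FG // Valid a} => psi a.1) ⁻¹'
          {x : Space | ((x.2 n : Set ℝ) ∩ U).Nonempty} =
          Subtype.val ⁻¹' {s : Str FG | ∃ q : ℚ, (q : ℝ) ∈ U ∧ QQ s n q} := by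
        ext ⟨s, hs⟩
        show (FF s n ∩ U).Nonempty ↔ ∃ q : ℚ, (q : ℝ) ∈ U ∧ QQ s n q
        constructor
        · rintro ⟨x, hx, hxU⟩
          obtain ⟨y, hyU, q, hq, rfl⟩ := mem_closure_iff.mp hx U hU hxU
          exact ⟨q, hyU, hq⟩
        · rintro ⟨q, hqU, hq⟩
          exact ⟨q, subset_closure ⟨q, hq, rfl⟩, hqU⟩
      rw [h1]
      refine measurable_subtype_coe (Measurable.setOf ?_)
      exact .exists fun q => .and measurable_const (m_QQ n q)
  have h1 : {a : Str FG | Valid a ∧ psi a ∈ s} =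
      Subtype.val '' ((fun a : {a : Str FG // Valid a} => psi a.1) ⁻¹' s) := by
    ext a
    constructor
    · rintro ⟨h2, h3⟩
      exact ⟨⟨a, h2⟩, h3, rfl⟩
    · rintro ⟨⟨a, h2⟩, h3, rfl⟩
      exact ⟨h2, h3⟩
  rw [h1]
  exact MeasurableSet.subtype_image hV (hm hs)

private theorem expansion {s : Str FG} (hs : Valid s) : Expansion base s := by
  have hinv : ∀ γ p, act s γ⁻¹ (act s γ p) = p := fun γ p => by
    rw [← hs.mul, inv_mul_cancel, hs.one]
  refine ⟨fun _ => rfl, fun _ _ _ => rfl, fun _ _ _ _ => ⟨rfl, rfl⟩, fun m => ?_,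
    fun γ δ m => ?_, fun γ i m n => ⟨?_, ?_⟩, fun _ _ _ => rfl, fun F hF => ?_⟩
  · rw [en_act, hs.one, Equiv.apply_symm_apply]
  · rw [en_act, hs.mul, en_act, en_act, Equiv.symm_apply_apply]
  · show decide (en.symm (s.2.1 γ m) < en.symm (s.2.1 γ n)) = decide (en.symm m < en.symm n)
    rw [decide_eq_decide, en_act, en_act, Equiv.symm_apply_apply, Equiv.symm_apply_apply]
    constructor
    · intro h
      have := hs.mono γ⁻¹ _ _ h
      rwa [hinv, hinv] at this
    · exact hs.mono γ _ _
  · rw [hs.rel, hs.rel]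
  · -- remove the largest element of `F`
    have hne : F.Nonempty := Finset.card_pos.mp (by omega)
    obtain ⟨w, hw, hmax⟩ := F.exists_max_image (fun m => en.symm m) hne
    refine ⟨F.erase w, Finset.erase_subset _ _, ?_, ?_, ?_⟩
    · rw [Finset.card_erase_of_mem hw]; omega
    · intro h
      have : w ∈ F.erase w := by rw [h]; exact hw
      exact Finset.notMem_erase w F this
    · intro u hu v hv w' hw' hw'X i
      have hww : w' = w := by
        by_contra hne
        exact hw'X (Finset.mem_erase.mpr ⟨hne, hw'⟩)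
      subst hww
      have hlt : ∀ z ∈ F.erase w', en.symm z < en.symm w' := fun z hz => by
        rw [Finset.mem_erase] at hz
        refine lt_of_le_of_ne (hmax z hz.2) fun h => hz.1 (en.symm.injective h)
      have hu' := hlt u hu
      have hv' := hlt v hv
      refine ⟨⟨?_, ?_⟩, ?_, ?_⟩
      · show decide _ = decide _
        rw [decide_eq_true hu', decide_eq_true hv']
      · show decide _ = decide _
        rw [decide_eq_false (not_lt.mpr hu'.le), decide_eq_false (not_lt.mpr hv'.le)]
      · rw [hs.rel, hs.rel]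
      · rw [hs.rel, hs.rel]

/-- Let the Polish group of the orientation preserving homeomorphisms of the line act on the
sequences of orientation preserving homeomorphisms of the line (by conjugation) and the sequences
of closed subsets of the line. Every invariant Borel set of pairs contains countably many orbits,
or there is a Borel map from the Cantor space into it that sends different points to different
orbits. -/
theorem result (B : Set Space) (hB : MeasurableSet[borelSpace] B)
    (hE : ∀ x ∈ B, ∀ y, SameOrbit x y → y ∈ B) :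
    (∃ f : ℕ → Space, ∀ x ∈ B, ∃ n, SameOrbit (f n) x) ∨
    (∃ c : (ℕ → Bool) → Space, Measurable[inferInstance, borelSpace] c ∧ (∀ a, c a ∈ B) ∧
      ∀ a b, SameOrbit (c a) (c b) → a = b) := by
  set A : Set (Str FG) := {s | GoodS s ∧ psi s ∈ B} with hA
  have hAm : MeasurableSet A := by
    have h1 : A = {s | GoodS s} ∩ {s | Valid s ∧ psi s ∈ B} := by
      ext s
      exact ⟨fun h => ⟨h.1, h.1.valid, h.2⟩, fun h => ⟨h.1, h.2.2⟩⟩
    rw [h1]
    exact m_goodS.setOf.inter (meas_psi hB)
  rcases ConjugationActions.result Unit FG base A hAm (fun s hs => expansion hs.1.valid)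
    (fun s hs s' σ hσ hi => by
      obtain ⟨h1, h2⟩ := good_iso hs.1 hσ hi
      exact ⟨h1, hE _ hs.2 _ h2⟩) with ⟨f, hf⟩ | ⟨c, hc1, hc2, hc3⟩
  · left
    have h1 : ∀ n, ∃ y : Space, ∀ s ∈ A, (∃ σ, InG base σ ∧ IsIso σ (f n) s) →
        SameOrbit y (psi s) := by
      intro n
      by_cases h : ∃ s ∈ A, ∃ σ, InG base σ ∧ IsIso σ (f n) s
      · obtain ⟨s, hs, σ, hσ, hi⟩ := h
        refine ⟨psi s, ?_⟩
        rintro s' hs' ⟨τ, hτ, hi'⟩
        refine (good_iso hs.1 (σ := σ.symm.trans τ) ⟨fun i m k => ?_, fun γ m => ?_,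
          fun i m => ?_⟩ ⟨fun i m k => ?_, fun γ m => ?_, fun i m => ?_⟩).2
        · rw [Equiv.trans_apply, Equiv.trans_apply, hτ.1, ← hσ.1, Equiv.apply_symm_apply,
            Equiv.apply_symm_apply]
        · rfl
        · rfl
        · rw [Equiv.trans_apply, Equiv.trans_apply, hi'.1, ← hi.1, Equiv.apply_symm_apply,
            Equiv.apply_symm_apply]
        · have h2 := hi.2.1 γ (σ.symm m)
          rw [Equiv.apply_symm_apply] at h2
          rw [Equiv.trans_apply, Equiv.trans_apply, hi'.2.1, h2, Equiv.symm_apply_apply]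
        · rw [Equiv.trans_apply, hi'.2.2, ← hi.2.2, Equiv.apply_symm_apply]
      · exact ⟨(fun _ => 1, fun _ => ⊥), fun s hs hσ => absurd ⟨s, hs, hσ⟩ h⟩
    choose y hy using h1
    refine ⟨y, fun x hx => ?_⟩
    obtain ⟨s, hs, hsx⟩ := exists_code x
    have hsA : s ∈ A := ⟨hs, hE x hx _ (sameOrbit_symm hsx)⟩
    obtain ⟨n, σ, hσ⟩ := hf s hsA
    exact ⟨n, sameOrbit_trans (hy n s hsA ⟨σ, hσ⟩) hsx⟩
  · right
    refine ⟨fun a => psi (c a), ?_, fun a => (hc2 a).2, fun a b hab => ?_⟩
    · intro S hS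
      have h1 : (fun a => psi (c a)) ⁻¹' S = c ⁻¹' {s | Valid s ∧ psi s ∈ S} := by
        ext a
        exact ⟨fun h => ⟨(hc2 a).1.valid, h⟩, fun h => h.2⟩
      rw [h1]
      have : BorelSpace (Structures FG) := Pool.Agent.Y576.TH.bsB
      exact hc1.measurable (meas_psi hS)
    · exact hc3 a b (iso_of_same (hc2 a).1 (hc2 b).1 hab)

end Pool.Agent.Results.MP_5607ba_lc.ActionsOnTheLine
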