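import Pool.Agent.H642.CH.FN

set_option autoImplicit false

/-!
The countable-or-perfect dichotomy for all logic actions of `Sym(ℕ)` reduces to the conjugation
action of the Polish group of the homeomorphisms of the Cantor space on itself, even to the
homeomorphisms with the simplest dynamics: every orbit converges in both directions to fixed
points, and the fixed points form a convergent sequence.
-/

namespace Pool.Agent.Results.MP_5607ba_lc.CantorConjugacy

open Filter Topology

/-- Relational structures on `ℕ` with relations of arities `a 0, a 1, ...`. -/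
abbrev Str (a : ℕ → ℕ) : Type := (i : ℕ) → (Fin (a i) → ℕ) → Bool

/-- Isomorphism: the orbit equivalence relation of the action of `Sym(ℕ)` by relabelling. -/
def Iso {a : ℕ → ℕ} (x y : Str a) : Prop :=
  ∃ σ : Equiv.Perm ℕ, ∀ (i : ℕ) (v : Fin (a i) → ℕ), y i (⇑σ ∘ v) = x i v

/-- The homeomorphisms of the Cantor space. -/
abbrev CantorHomeo : Type := (ℕ → Bool) ≃ₜ (ℕ → Bool)

/-- The Borel structure of the group of the homeomorphisms of the Cantor space: the σ-algebra
generated by the evaluation maps `f ↦ f x`. -/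
instance evaluationBorel : MeasurableSpace CantorHomeo :=
  MeasurableSpace.comap (fun f => (f : (ℕ → Bool) → (ℕ → Bool))) MeasurableSpace.pi

/-- Topological conjugacy: the orbit equivalence relation of the conjugation action. -/
def Conj (f g : CantorHomeo) : Prop := ∃ h : CantorHomeo, ∀ x, h (f x) = g (h x)

/-- Every forward orbit and every backward orbit converges to a fixed point, and there is a point
all of whose neighbourhoods contain all but finitely many fixed points. -/
structure ConvergentOrbits (f : CantorHomeo) : Prop where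
  forward : ∀ x, ∃ p, f p = p ∧ Tendsto (fun n : ℕ => (⇑f)^[n] x) atTop (𝓝 p)
  backward : ∀ x, ∃ p, f p = p ∧ Tendsto (fun n : ℕ => (⇑f.symm)^[n] x) atTop (𝓝 p)
  fixedPoints : ∃ p, ∀ U : Set (ℕ → Bool), IsOpen U → p ∈ U → {x | f x = x ∧ x ∉ U}.Finite

/-- The countable-or-perfect dichotomy for the equivalence relation `E` on the class `K`: for every
`E`-invariant Borel subset `B` of `K`, countably many classes meet `B`, or some Borel map from the
Cantor space to `B` sends distinct points to inequivalent points. -/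
def Dichotomy {Y : Type} [MeasurableSpace Y] (E : Y → Y → Prop) (K : Y → Prop) : Prop :=
  ∀ B : Set Y, MeasurableSet B → (∀ y z, E y z → (y ∈ B ↔ z ∈ B)) → (∀ y ∈ B, K y) →
    (∃ f : ℕ → Y, ∀ y ∈ B, ∃ n, E (f n) y) ∨
    (∃ g : (ℕ → Bool) → Y, Measurable g ∧ (∀ c, g c ∈ B) ∧ ∀ c d, E (g c) (g d) → c = d)

/-- `K` is faithfully complete: every isomorphism-invariant Borel class `B` of countable structures,
in any countable relational language, is represented by an invariant Borel subset `B'` of `K`. The
Borel map `F` sends `B'` to `B`, equivalent points of `B'` and only these have isomorphic images,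
and every member of `B` is isomorphic to an image. -/
def FaithfullyComplete {Y : Type} [MeasurableSpace Y] (E : Y → Y → Prop) (K : Y → Prop) : Prop :=
  ∀ (a : ℕ → ℕ) (B : Set (Str a)), MeasurableSet B → (∀ x y, Iso x y → (x ∈ B ↔ y ∈ B)) →
    ∃ (B' : Set Y) (F : Y → Str a), MeasurableSet B' ∧ (∀ y z, E y z → (y ∈ B' ↔ z ∈ B')) ∧
      (∀ y ∈ B', K y) ∧ Measurable F ∧ (∀ y ∈ B', F y ∈ B) ∧
      (∀ y ∈ B', ∀ z ∈ B', E y z ↔ Iso (F y) (F z)) ∧ ∀ x ∈ B, ∃ y ∈ B', Iso x (F y)

/-- Topological conjugacy of the homeomorphisms of the Cantor space all of whose orbits converge in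
both directions is faithfully complete. Hence, if the dichotomy holds for this conjugation action,
then it holds for all actions of `Sym(ℕ)` on spaces of countable structures. -/
theorem result : FaithfullyComplete Conj ConvergentOrbits ∧
    (Dichotomy Conj ConvergentOrbits →
      ∀ a : ℕ → ℕ, Dichotomy (Iso (a := a)) (fun _ => True)) := by
  have h1 : FaithfullyComplete Conj ConvergentOrbits := by
    intro a B hB hi
    obtain ⟨B', F, k1, k2, k3, k4⟩ := Pool.Agent.H642.CH.faithful_cj a B hB hi
    exact ⟨B', F, k1, k2, fun y hy => ⟨(k3 y hy).fwd, (k3 y hy).bwd, (k3 y hy).fix⟩, k4⟩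
  refine ⟨h1, fun hD a B hB hinv _ => ?_⟩
  obtain ⟨B', F, k1, k2, k3, k4, k5, k6, k7⟩ := h1 a B hB hinv
  rcases hD B' k1 k2 k3 with ⟨f, hf⟩ | ⟨g, g1, g2, g3⟩
  · left
    refine ⟨fun n => F (f n), fun x hx => ?_⟩
    obtain ⟨y, hy, σ, hσ⟩ := k7 x hx
    obtain ⟨n, hn⟩ := hf y hy
    have hfn : f n ∈ B' := (k2 _ _ hn).2 hy
    obtain ⟨τ, hτ⟩ := (k6 _ hfn _ hy).1 hn
    refine ⟨n, σ⁻¹ * τ, fun i v => ?_⟩
    have e1 := hτ i v
    have e2 := hσ i (⇑(σ⁻¹ * τ) ∘ v)
    rw [← e2]
    refine Eq.trans ?_ e1
    congr 1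
    funext j
    simp
  · right
    exact ⟨fun c => F (g c), k4.comp g1, fun c => k5 _ (g2 c), fun c d h =>
      g3 c d ((k6 _ (g2 c) _ (g2 d)).2 h)⟩

end Pool.Agent.Results.MP_5607ba_lc.CantorConjugacy
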