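import Pool.Agent.H642.MR.Main

set_option autoImplicit false

/-!
The countable-or-perfect dichotomy for the Polish group of the orientation preserving
homeomorphisms of the real line, acting on sequences of closed monotone relations.
-/

open Set TopologicalSpace MeasureTheory

namespace Pool.Agent.Results.MP_5607ba_lc.MonotoneRelationsOnTheLine

/-- Sequences of closed binary relations on the line, that is, of closed subsets of the plane. -/
abbrev Space : Type := ℕ → Closeds (ℝ × ℝ)

/-- The Effros Borel structure: it is generated by the sets of the sequences whose `n`-th member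
meets the open set `U`. -/
@[reducible] def borelSpace : MeasurableSpace Space :=
  MeasurableSpace.generateFrom
    {S | ∃ (n : ℕ) (U : Set (ℝ × ℝ)), IsOpen U ∧
      S = {x : Space | ((x n : Set (ℝ × ℝ)) ∩ U).Nonempty}}

/-- `x` and `y` are in one orbit of the group of the orientation preserving homeomorphisms of the
line (`ℝ ≃o ℝ` is the group of the increasing bijections of `ℝ`): some `g` maps each relation of `x`
onto the corresponding relation of `y`. -/
def SameOrbit (x y : Space) : Prop :=
  ∃ g : ℝ ≃o ℝ, ∀ n, (y n : Set (ℝ × ℝ)) = (fun p : ℝ × ℝ => (g p.1, g p.2)) '' (x n : Set (ℝ × ℝ))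

/-- The relation is nondecreasing or nonincreasing: when the first coordinate grows, then the second
coordinate does not decrease, or it does not increase. -/
def IsMonotone (S : Closeds (ℝ × ℝ)) : Prop :=
  (∀ p ∈ S, ∀ q ∈ S, p.1 < q.1 → p.2 ≤ q.2) ∨ (∀ p ∈ S, ∀ q ∈ S, p.1 < q.1 → q.2 ≤ p.2)

/-- Let the Polish group of the orientation preserving homeomorphisms of the line act diagonally on
the sequences of closed relations on the line. Every invariant Borel set of sequences of monotone
closed relations contains countably many orbits, or there is a Borel map from the Cantor space into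
it that sends different points to different orbits. -/
theorem result (B : Set Space) (hB : MeasurableSet[borelSpace] B)
    (hm : ∀ x ∈ B, ∀ n, IsMonotone (x n)) (hE : ∀ x ∈ B, ∀ y, SameOrbit x y → y ∈ B) :
    (∃ f : ℕ → Space, ∀ x ∈ B, ∃ n, SameOrbit (f n) x) ∨
    (∃ c : (ℕ → Bool) → Space, Measurable[inferInstance, borelSpace] c ∧ (∀ a, c a ∈ B) ∧
      ∀ a b, SameOrbit (c a) (c b) → a = b) := by
  rcases Pool.Agent.H642.MR.main B hB (fun x hx => hm x hx) (fun x hx y h => hE x hx y h) with
    ⟨f, hf⟩ | h
  · exact Or.inl ⟨f, fun x hx => by
      obtain ⟨n, _, h⟩ := hf x hx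
      exact ⟨n, h⟩⟩
  · exact Or.inr h

end Pool.Agent.Results.MP_5607ba_lc.MonotoneRelationsOnTheLine
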